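import Pool.Agent.H91.RF.TargetsK2

/-!
# MP_609556_an, module LIBB: gain in the limit environment
-/

open MeasureTheory Set Filter Topology Metric
open Pool.Agent.H29.TF (hk P)
open Pool.Agent.H91.RD
open Pool.Agent.H91.RF

namespace Pool.Agent.H16.RF.LIBB

theorem hk_exp_le {N : ℕ} {S : ℝ} (hS : 0 < S) (c : ℝ) :
    ∃ A : ℝ, ∀ y : E N, hk S y * Real.exp (c * ‖y‖) ≤ A * hk (2 * S) y := by
  refine ⟨(4 * Real.pi * S) ^ (-(Module.finrank ℝ (E N) : ℝ) / 2) *
    ((4 * Real.pi * (2 * S)) ^ (-(Module.finrank ℝ (E N) : ℝ) / 2))⁻¹ *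
      Real.exp (2 * S * c ^ 2), fun y => ?_⟩
  have hq : 0 < (4 * Real.pi * (2 * S)) ^ (-(Module.finrank ℝ (E N) : ℝ) / 2) := by positivity
  have hp : 0 < (4 * Real.pi * S) ^ (-(Module.finrank ℝ (E N) : ℝ) / 2) := by positivity
  have h1 : c * ‖y‖ ≤ ‖y‖ ^ 2 / (8 * S) + 2 * S * c ^ 2 := by
    have h2 : 0 ≤ (‖y‖ - 4 * S * c) ^ 2 / (8 * S) := by positivity
    have h3 : (‖y‖ - 4 * S * c) ^ 2 / (8 * S) =
        ‖y‖ ^ 2 / (8 * S) + 2 * S * c ^ 2 - c * ‖y‖ := by
      field_simp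
      ring
    linarith
  have h4 : Real.exp (-‖y‖ ^ 2 / (4 * S)) * Real.exp (c * ‖y‖) ≤
      Real.exp (2 * S * c ^ 2) * Real.exp (-‖y‖ ^ 2 / (4 * (2 * S))) := by
    rw [← Real.exp_add, ← Real.exp_add]
    apply Real.exp_le_exp.2
    have h5 : -‖y‖ ^ 2 / (4 * S) = -(‖y‖ ^ 2 / (8 * S)) - ‖y‖ ^ 2 / (8 * S) := by
      field_simp
      ring
    have h6 : -‖y‖ ^ 2 / (4 * (2 * S)) = -(‖y‖ ^ 2 / (8 * S)) := by
      field_simp
      ring
    rw [h5, h6]
    linarith
  unfold hk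
  calc (4 * Real.pi * S) ^ (-(Module.finrank ℝ (E N) : ℝ) / 2) *
        Real.exp (-‖y‖ ^ 2 / (4 * S)) * Real.exp (c * ‖y‖)
      = (4 * Real.pi * S) ^ (-(Module.finrank ℝ (E N) : ℝ) / 2) *
        (Real.exp (-‖y‖ ^ 2 / (4 * S)) * Real.exp (c * ‖y‖)) := by ring
    _ ≤ (4 * Real.pi * S) ^ (-(Module.finrank ℝ (E N) : ℝ) / 2) *
        (Real.exp (2 * S * c ^ 2) * Real.exp (-‖y‖ ^ 2 / (4 * (2 * S)))) :=
        mul_le_mul_of_nonneg_left h4 hp.le
    _ = _ := by
        field_simp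

/-- `p` is continuous -/
theorem cont_of_har {N : ℕ} {K C1 Kw : ℝ} {V : ℝ → E N → ℝ} {w : E N} {p : E N → ℝ}
    (h : Sty K C1 Kw V w p) : Continuous p := by
  have h1 : LipschitzWith (Real.toNNReal C1) (fun x => Real.log (p x)) := by
    apply LipschitzWith.of_dist_le_mul
    have hC : 0 ≤ C1 := by linarith [h.hC1]
    have key : ∀ x y, Real.log (p x) ≤ C1 * ‖x - y‖ + Real.log (p y) := by
      intro x y
      have h2 := Real.log_le_log (h.pos x) (h.har x y)
      rwa [Real.log_mul (Real.exp_pos _).ne' (h.pos y).ne', Real.log_exp] at h2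
    intro x y
    rw [Real.dist_eq, Real.coe_toNNReal _ hC, dist_eq_norm, abs_le]
    have h3 := key x y
    have h4 := key y x
    rw [norm_sub_rev] at h4
    constructor <;> linarith
  have h2 : p = fun x => Real.exp (Real.log (p x)) := by
    funext x
    rw [Real.exp_log (h.pos x)]
  rw [h2]
  exact Real.continuous_exp.comp h1.continuous

/-- integrability of the first moment -/
theorem integrable_moment (hKER : T_KER) {N : ℕ} {K C1 Kw : ℝ} {V : ℝ → E N → ℝ} {w : E N}
    {p : E N → ℝ} (h : Sty K C1 Kw V w p) {S : ℝ} (hS : 0 < S) :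
    Integrable (fun y => (gk V 0 0 (0 - S) y * p (y + S • w)) • y) := by
  obtain ⟨hm, hb, -⟩ := hKER N K V h.pt
  have hS' : 0 - S < 0 := by linarith
  have hmeas : Measurable (fun y : E N => gk V 0 0 (0 - S) y) :=
    (hm (0 - S) 0 hS').comp (measurable_const.prodMk measurable_id)
  have hpc := cont_of_har h
  obtain ⟨A, hA⟩ := hk_exp_le (N := N) hS (C1 + 1)
  have hC : 0 ≤ C1 := by linarith [h.hC1]
  have hdom : Integrable (fun y : E N =>
      (Real.exp (K * S) * (Real.exp (C1 * ‖S • w‖) * p 0) * A) * hk (2 * S) y) :=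
    (Pool.Agent.H29.TF.integrable_hk (by positivity)).const_mul _
  refine hdom.mono' ?_ (Eventually.of_forall fun y => ?_)
  · apply Measurable.aestronglyMeasurable
    exact (hmeas.mul (hpc.measurable.comp (measurable_id.add_const _))).smul measurable_id
  · have hg := hb (0 - S) 0 hS' 0 y
    have e1 : (0 : ℝ) - (0 - S) = S := by ring
    rw [e1, zero_sub, Pool.Agent.H29.TF.hk_neg] at hg
    have hg0 : 0 ≤ gk V 0 0 (0 - S) y :=
      le_trans (mul_nonneg (Real.exp_pos _).le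
        (Pool.Agent.H29.TF.hk_nonneg hS.le y)) hg.1
    have hp1 : p (y + S • w) ≤ Real.exp (C1 * ‖y‖) * (Real.exp (C1 * ‖S • w‖) * p 0) := by
      refine (h.har (y + S • w) 0).trans ?_
      rw [sub_zero, ← mul_assoc, ← Real.exp_add]
      apply mul_le_mul_of_nonneg_right _ (h.pos 0).le
      apply Real.exp_le_exp.2
      have := norm_add_le y (S • w)
      nlinarith
    have hy : ‖y‖ ≤ Real.exp ‖y‖ := by
      have := Real.add_one_le_exp ‖y‖
      linarith
    rw [norm_smul, Real.norm_of_nonneg (mul_nonneg hg0 (h.pos _).le)]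
    have hp0 := (h.pos 0).le
    calc gk V 0 0 (0 - S) y * p (y + S • w) * ‖y‖
        ≤ (Real.exp (K * S) * hk S y) *
          (Real.exp (C1 * ‖y‖) * (Real.exp (C1 * ‖S • w‖) * p 0)) * Real.exp ‖y‖ := by
          apply mul_le_mul _ hy (norm_nonneg _) _
          · apply mul_le_mul hg.2 hp1 (h.pos _).le
            exact mul_nonneg (Real.exp_pos _).le (Pool.Agent.H29.TF.hk_nonneg hS.le y)
          · have := Pool.Agent.H29.TF.hk_nonneg hS.le y
            positivity
      _ = (Real.exp (K * S) * (Real.exp (C1 * ‖S • w‖) * p 0)) *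
          (hk S y * Real.exp ((C1 + 1) * ‖y‖)) := by
          rw [add_mul, one_mul, Real.exp_add]
          ring
      _ ≤ (Real.exp (K * S) * (Real.exp (C1 * ‖S • w‖) * p 0)) * (A * hk (2 * S) y) := by
          apply mul_le_mul_of_nonneg_left (hA y)
          positivity
      _ = _ := by ring

theorem main (hPW : T_PW) (hKER : T_KER) : T_LIBB := by
  intro N K C1 cc α M ε1 hN hK hC1 hcc hα hM hε
  obtain ⟨S, hS, H⟩ := hPW N K C1 (2 * cc * (1 + α) ^ 2 + M + 1) ε1 hN hK hC1 (by positivity) hε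
  refine ⟨S, hS, ?_⟩
  intro V e a p he ha hae hst hp0
  have hint := integrable_moment hKER hst hS
  have hHm := H S le_rfl V _ p hst
    (∫ y, (gk V 0 0 (0 - S) y *
      p (y + S • ((cc * (1 - α ^ 2) - M) • e - (2 * cc) • a))) • y)
    (by rw [hp0]; simp only [div_one, zero_sub])
  have h1 : ∫ y, gk V 0 0 (0 - S) y *
      p (y + S • ((cc * (1 - α ^ 2) - M) • e - (2 * cc) • a)) = 1 := by
    have := hst.eig S hS 0
    rw [hp0] at this
    rw [zero_sub]
    exact this.symm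
  rw [hp0, Real.log_one] at hHm
  simp only [div_one] at hHm
  have h2 : ∫ y, gk V 0 0 (0 - S) y *
      p (y + S • ((cc * (1 - α ^ 2) - M) • e - (2 * cc) • a)) * inner ℝ (y - 0) e =
      inner ℝ (∫ y, (gk V 0 0 (0 - S) y *
        p (y + S • ((cc * (1 - α ^ 2) - M) • e - (2 * cc) • a))) • y) e := by
    rw [real_inner_comm, ← integral_inner hint]
    apply integral_congr_ae
    refine Eventually.of_forall fun y => ?_
    simp only [sub_zero, inner_smul_right, real_inner_comm]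
  unfold Gn Ex
  rw [h1, h2, div_one, div_one]
  generalize (∫ y, (gk V 0 0 (0 - S) y *
      p (y + S • ((cc * (1 - α ^ 2) - M) • e - (2 * cc) • a))) • y) = m at hHm ⊢
  rw [zero_sub]
  rw [inner_sub_right, inner_smul_right, inner_smul_right] at hHm
  have key : 0 ≤ ‖m + (S * cc) • (e - a)‖ ^ 2 := by positivity
  have hea : inner ℝ e a = 0 := by rw [real_inner_comm]; exact hae
  have key2 : ‖m + (S * cc) • (e - a)‖ ^ 2 = ‖m‖ ^ 2 +
      2 * (S * cc * (inner ℝ m e - inner ℝ m a)) + (S * cc) ^ 2 * (1 + α ^ 2) := by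
    rw [norm_add_sq_real, inner_smul_right, inner_sub_right, norm_smul, mul_pow,
      norm_sub_sq_real, he, ha, hea, Real.norm_of_nonneg (by positivity)]
    ring
  rw [key2] at key
  have key3 : 0 ≤ ‖m‖ ^ 2 / S +
      2 * (cc * (inner ℝ m e - inner ℝ m a)) + S * cc ^ 2 * (1 + α ^ 2) := by
    have h3 := div_nonneg key hS.le
    have h4 : (‖m‖ ^ 2 +
        2 * (S * cc * (inner ℝ m e - inner ℝ m a)) + (S * cc) ^ 2 * (1 + α ^ 2)) / S =
        ‖m‖ ^ 2 / S +
      2 * (cc * (inner ℝ m e - inner ℝ m a)) + S * cc ^ 2 * (1 + α ^ 2) := by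
      field_simp
    rwa [h4] at h3
  refine le_trans ?_ (add_le_add_left hHm _)
  linarith

end Pool.Agent.H16.RF.LIBB
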